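import Mathlib

set_option autoImplicit false

namespace Pool.Agent.Work.MP_9ddcd7_co

/-- The lattice with a bottom, a top, and an antichain `X` in the middle. -/
inductive MX (X : Type) where
  | bot : MX X
  | mid (x : X) : MX X
  | top : MX X

namespace MX

variable {X : Type}

open Classical in
noncomputable instance : Lattice (MX X) where
  le a b := a = bot ∨ b = top ∨ a = b
  le_refl a := Or.inr (Or.inr rfl)
  le_trans := by
    intro a b c h1 h2
    rcases h1 with rfl | rfl | rfl
    · exact Or.inl rfl
    · rcases h2 with h | h | h
      · exact absurd h (by simp)
      · exact Or.inr (Or.inl h)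
      · exact Or.inr (Or.inl h.symm)
    · exact h2
  le_antisymm := by
    intro a b h1 h2
    rcases h1 with rfl | rfl | rfl
    · rcases h2 with h | h | h
      · exact h.symm
      · exact absurd h (by simp)
      · exact h.symm
    · rcases h2 with h | h | h
      · exact absurd h (by simp)
      · exact h
      · exact h.symm
    · rfl
  sup a b := if a = bot then b else if b = bot then a else if a = b then a else top
  inf a b := if a = top then b else if b = top then a else if a = b then a else bot
  le_sup_left := by
    intro a b
    show a = bot ∨ (if a = bot then b else if b = bot then a else if a = b then a else top) = top ∨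
      a = (if a = bot then b else if b = bot then a else if a = b then a else top)
    split_ifs <;> simp_all
  le_sup_right := by
    intro a b
    show b = bot ∨ (if a = bot then b else if b = bot then a else if a = b then a else top) = top ∨
      b = (if a = bot then b else if b = bot then a else if a = b then a else top)
    split_ifs <;> simp_all
  sup_le := by
    intro a b c h1 h2
    change a = bot ∨ c = top ∨ a = c at h1
    change b = bot ∨ c = top ∨ b = c at h2
    show (if a = bot then b else if b = bot then a else if a = b then a else top) = bot ∨
      c = top ∨ (if a = bot then b else if b = bot then a else if a = b then a else top) = c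
    split_ifs <;> simp_all
    rcases h1 with h | h
    · exact Or.inl h
    · rcases h2 with h' | h'
      · exact Or.inl h'
      · subst h; exact absurd h'.symm ‹_›
  inf_le_left := by
    intro a b
    show (if a = top then b else if b = top then a else if a = b then a else bot) = bot ∨ a = top ∨
      (if a = top then b else if b = top then a else if a = b then a else bot) = a
    split_ifs <;> simp_all
  inf_le_right := by
    intro a b
    show (if a = top then b else if b = top then a else if a = b then a else bot) = bot ∨ b = top ∨
      (if a = top then b else if b = top then a else if a = b then a else bot) = b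
    split_ifs <;> simp_all
  le_inf := by
    intro a b c h1 h2
    change a = bot ∨ b = top ∨ a = b at h1
    change a = bot ∨ c = top ∨ a = c at h2
    show a = bot ∨ (if b = top then c else if c = top then b else if b = c then b else bot) = top ∨
      a = (if b = top then c else if c = top then b else if b = c then b else bot)
    split_ifs <;> simp_all
    rcases h1 with h | h
    · exact h
    · rcases h2 with h' | h'
      · exact h'
      · subst h; exact absurd h' ‹_›

noncomputable instance : BoundedOrder (MX X) where
  top := top
  le_top _ := Or.inr (Or.inl rfl)
  bot := bot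
  bot_le _ := Or.inl rfl

theorem le_def {a b : MX X} : a ≤ b ↔ a = bot ∨ b = top ∨ a = b := Iff.rfl

theorem bot_eq : (⊥ : MX X) = bot := rfl
theorem top_eq : (⊤ : MX X) = top := rfl

instance : Nontrivial (MX X) := ⟨⟨bot, top, by simp⟩⟩

instance : IsModularLattice (MX X) where
  sup_inf_le_assoc_of_le := by
    intro x y z hxz
    rcases le_def.mp hxz with rfl | rfl | rfl
    · rw [← bot_eq]; simp
    · rw [← top_eq]; simp
    · simp

instance [Finite X] : Finite (MX X) := by
  classical
  have : Function.Surjective (fun o : Option (Option X) =>
      match o with
      | none => (bot : MX X)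
      | some none => top
      | some (some x) => mid x) := by
    intro a
    cases a with
    | bot => exact ⟨none, rfl⟩
    | mid x => exact ⟨some (some x), rfl⟩
    | top => exact ⟨some none, rfl⟩
  exact Finite.of_surjective _ this

theorem card_le [Finite X] : Nat.card (MX X) ≤ Nat.card X + 2 := by
  classical
  have : Function.Surjective (fun o : Option (Option X) =>
      match o with
      | none => (bot : MX X)
      | some none => top
      | some (some x) => mid x) := by
    intro a
    cases a with
    | bot => exact ⟨none, rfl⟩
    | mid x => exact ⟨some (some x), rfl⟩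
    | top => exact ⟨some none, rfl⟩
  have h := Nat.card_le_card_of_surjective _ this
  rwa [Finite.card_option, Finite.card_option] at h

/-- the automorphism induced by a permutation -/
def mapFun {Y : Type} (f : X → Y) : MX X → MX Y
  | bot => bot
  | mid x => mid (f x)
  | top => top

def map {Y : Type} (e : X ≃ Y) : MX X ≃o MX Y where
  toFun := mapFun e
  invFun := mapFun e.symm
  left_inv := by intro a; cases a <;> simp [mapFun]
  right_inv := by intro a; cases a <;> simp [mapFun]
  map_rel_iff' := by
    intro a b
    simp only [Equiv.coe_fn_mk, le_def]
    cases a <;> cases b <;> simp [mapFun]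

@[simp] theorem map_mid {Y : Type} (e : X ≃ Y) (x : X) : map e (mid x) = mid (e x) := rfl

theorem isAtom_mid (x : X) : IsAtom (mid x) := by
  constructor
  · rw [bot_eq]; simp
  · intro b hb
    rcases le_def.mp hb.le with h | h | h
    · exact h
    · exact absurd h (by simp)
    · exact absurd h hb.ne

theorem mid_le_mid {x y : X} (h : (mid x : MX X) ≤ mid y) : x = y := by
  rcases le_def.mp h with h | h | h
  · exact absurd h (by simp)
  · exact absurd h (by simp)
  · exact MX.mid.inj h

/-- the join of the atoms is the top -/
theorem atoms_top [Nontrivial X] (w : MX X) (h : ∀ x, mid x ≤ w) : w = ⊤ := by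
  obtain ⟨x, y, hxy⟩ := exists_pair_ne X
  cases w with
  | bot =>
    rcases le_def.mp (h x) with h | h | h
    · exact absurd h (by simp)
    · exact absurd h (by simp)
    · exact absurd h (by simp)
  | mid z =>
    have h1 := mid_le_mid (h x)
    have h2 := mid_le_mid (h y)
    exact absurd (h1.trans h2.symm) hxy
  | top => rfl

end MX

theorem isAtom_fst {A B : Type} [Lattice A] [BoundedOrder A] [Lattice B] [BoundedOrder B] {a : A}
    (ha : IsAtom a) : IsAtom ((a, ⊥) : A × B) := by
  constructor
  · intro h
    exact ha.1 (congrArg Prod.fst h)
  · rintro ⟨b1, b2⟩ hb
    have h2 : b2 = ⊥ := le_bot_iff.mp hb.le.2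
    subst h2
    have h1 : b1 < a := by
      refine lt_of_le_of_ne hb.le.1 ?_
      rintro rfl
      exact hb.ne rfl
    rw [ha.2 b1 h1]; rfl

theorem isAtom_snd {A B : Type} [Lattice A] [BoundedOrder A] [Lattice B] [BoundedOrder B] {b : B}
    (hb : IsAtom b) : IsAtom ((⊥, b) : A × B) := by
  constructor
  · intro h
    exact hb.1 (congrArg Prod.snd h)
  · rintro ⟨b1, b2⟩ hb'
    have h2 : b1 = ⊥ := le_bot_iff.mp hb'.le.1
    subst h2
    have h1 : b2 < b := by
      refine lt_of_le_of_ne hb'.le.2 ?_
      rintro rfl
      exact hb'.ne rfl
    rw [hb.2 b2 h1]; rfl

theorem prod_atoms_top {X : Type} [Nontrivial X] (w : MX X × MX X)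
    (h : ∀ a, IsAtom a → a ≤ w) : w = ⊤ := by
  apply Prod.ext
  · apply MX.atoms_top
    intro x
    exact (h _ (isAtom_fst (MX.isAtom_mid x))).1
  · apply MX.atoms_top
    intro x
    exact (h _ (isAtom_snd (MX.isAtom_mid x))).2

instance prodModular {A B : Type} [Lattice A] [Lattice B] [IsModularLattice A]
    [IsModularLattice B] : IsModularLattice (A × B) where
  sup_inf_le_assoc_of_le := by
    rintro ⟨x1, x2⟩ ⟨y1, y2⟩ ⟨z1, z2⟩ h
    exact ⟨IsModularLattice.sup_inf_le_assoc_of_le y1 h.1,
      IsModularLattice.sup_inf_le_assoc_of_le y2 h.2⟩

theorem piModular {A : Type} [Lattice A] [IsModularLattice A]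
    (S : Sublattice (ℕ → A)) : IsModularLattice S where
  sup_inf_le_assoc_of_le := by
    rintro x y z h j
    exact IsModularLattice.sup_inf_le_assoc_of_le (y.1 j) (h j)

end Pool.Agent.Work.MP_9ddcd7_co
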