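import Pool.Agent.Work.MP_9ddcd7_co.Stack
import Pool.Agent.Work.MP_9ddcd7_co.MX

set_option autoImplicit false

namespace Pool.Agent.Work.MP_9ddcd7_co

section Group

variable {G : Type} [Group G]

/-- right multiplication on the atoms -/
noncomputable def rho (s : G) : MX G ≃o MX G := MX.map (Equiv.mulRight s)

/-- left multiplication on the atoms -/
noncomputable def lam (g : G) : MX G ≃o MX G := MX.map (Equiv.mulLeft g)

theorem lam_rho (g s : G) (w : MX G) : lam g (rho s w) = rho s (lam g w) := by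
  cases w with
  | bot => rfl
  | mid x =>
    show MX.mid (g * (x * s)) = MX.mid (g * x * s)
    rw [mul_assoc]
  | top => rfl

/-- linking map -/
noncomputable def phi (s : ℕ → G) (i : ℕ) (p : MX G × MX G) : MX G × MX G :=
  (p.1 ⊓ rho (s i) p.2, p.2)

theorem phi_inf (s : ℕ → G) (i : ℕ) (a b : MX G × MX G) :
    phi s i (a ⊓ b) = phi s i a ⊓ phi s i b := by
  apply Prod.ext
  · show (a.1 ⊓ b.1) ⊓ rho (s i) (a.2 ⊓ b.2) = (a.1 ⊓ rho (s i) a.2) ⊓ (b.1 ⊓ rho (s i) b.2)
    rw [map_inf, inf_inf_inf_comm]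
  · rfl

theorem phi_top (s : ℕ → G) (i : ℕ) : phi s i ⊤ = ⊤ := by
  apply Prod.ext
  · show ⊤ ⊓ rho (s i) ⊤ = ⊤
    simp
  · rfl

theorem phi_bot (s : ℕ → G) (i : ℕ) : phi s i ⊥ = ⊥ := by
  apply Prod.ext
  · show ⊥ ⊓ rho (s i) ⊥ = ⊥
    simp
  · rfl

/-- the lattice -/
abbrev Lat (s : ℕ → G) (m : ℕ) : Type := stack (phi s) (phi_inf s) m

/-- diagonal left multiplication -/
noncomputable def lam2 (g : G) : (MX G × MX G) ≃o (MX G × MX G) where
  toFun p := (lam g p.1, lam g p.2)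
  invFun p := ((lam g).symm p.1, (lam g).symm p.2)
  left_inv p := by simp
  right_inv p := by simp
  map_rel_iff' := by
    intro a b
    constructor
    · intro h
      exact ⟨(lam g).le_iff_le.mp h.1, (lam g).le_iff_le.mp h.2⟩
    · intro h
      exact ⟨(lam g).le_iff_le.mpr h.1, (lam g).le_iff_le.mpr h.2⟩

theorem lam2_apply (g : G) (p : MX G × MX G) : lam2 g p = (lam g p.1, lam g p.2) := rfl

theorem lam2_phi (g : G) (s : ℕ → G) (i : ℕ) (p : MX G × MX G) :
    lam2 g (phi s i p) = phi s i (lam2 g p) := by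
  apply Prod.ext
  · show lam g (p.1 ⊓ rho (s i) p.2) = lam g p.1 ⊓ rho (s i) (lam g p.2)
    rw [map_inf, lam_rho]
  · rfl

theorem act_mem (s : ℕ → G) (m : ℕ) (g : G) (u : ℕ → MX G × MX G)
    (hu : u ∈ stack (phi s) (phi_inf s) m) :
    (fun i => lam2 g (u i)) ∈ stack (phi s) (phi_inf s) m := by
  obtain ⟨h1, h2, h3⟩ := hu
  refine ⟨fun i => ?_, fun i hi => ?_, fun i hi => ?_⟩
  · show lam2 g (u (i + 1)) ≤ phi s i (lam2 g (u i))
    rw [← lam2_phi]
    exact (lam2 g).monotone (h1 i)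
  · show lam2 g (u (i + 2)) = ⊥
    have : u i ≠ ⊤ := by
      intro h
      apply hi
      show lam2 g (u i) = ⊤
      rw [h, map_top]
    rw [h2 i this, map_bot]
  · show lam2 g (u i) = ⊥
    rw [h3 i hi, map_bot]

theorem lam_mul (g h : G) (w : MX G) : lam (g * h) w = lam g (lam h w) := by
  cases w with
  | bot => rfl
  | mid x =>
    show MX.mid (g * h * x) = MX.mid (g * (h * x))
    rw [mul_assoc]
  | top => rfl

theorem lam_one (w : MX G) : lam (1 : G) w = w := by
  cases w with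
  | bot => rfl
  | mid x =>
    show MX.mid (1 * x) = MX.mid x
    rw [one_mul]
  | top => rfl

theorem lam2_mul (g h : G) (p : MX G × MX G) : lam2 (g * h) p = lam2 g (lam2 h p) := by
  simp [lam2_apply, lam_mul]

theorem lam2_one (p : MX G × MX G) : lam2 (1 : G) p = p := by
  simp [lam2_apply, lam_one]

/-- the automorphism of the lattice given by `g` -/
noncomputable def actIso (s : ℕ → G) (m : ℕ) (g : G) : Lat s m ≃o Lat s m where
  toFun u := ⟨fun i => lam2 g (u.1 i), act_mem s m g u.1 u.2⟩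
  invFun u := ⟨fun i => lam2 g⁻¹ (u.1 i), act_mem s m g⁻¹ u.1 u.2⟩
  left_inv u := by
    apply Subtype.ext; funext i
    show lam2 g⁻¹ (lam2 g (u.1 i)) = u.1 i
    rw [← lam2_mul, inv_mul_cancel, lam2_one]
  right_inv u := by
    apply Subtype.ext; funext i
    show lam2 g (lam2 g⁻¹ (u.1 i)) = u.1 i
    rw [← lam2_mul, mul_inv_cancel, lam2_one]
  map_rel_iff' := by
    intro u w
    constructor
    · intro h i
      exact (lam2 g).le_iff_le.mp (h i)
    · intro h i
      exact (lam2 g).le_iff_le.mpr (h i)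

theorem actIso_apply (s : ℕ → G) (m : ℕ) (g : G) (u : Lat s m) (i : ℕ) :
    (actIso s m g u).1 i = lam2 g (u.1 i) := rfl

/-- the action as a homomorphism -/
noncomputable def actHom (s : ℕ → G) (m : ℕ) : G →* (Lat s m ≃o Lat s m) where
  toFun := actIso s m
  map_one' := by
    apply OrderIso.ext; funext u
    apply Subtype.ext; funext i
    exact lam2_one _
  map_mul' g h := by
    apply OrderIso.ext; funext u
    apply Subtype.ext; funext i
    exact lam2_mul _ _ _

theorem actHom_injective (s : ℕ → G) (m : ℕ) : Function.Injective (actHom s m) := by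
  intro g h hgh
  have h1 : (actIso s m g (blk (phi_inf s) m (phi_top s) 0 (Nat.zero_le m)
      (MX.mid 1, MX.mid 1))).1 0 = (actIso s m h (blk (phi_inf s) m (phi_top s) 0 (Nat.zero_le m)
      (MX.mid 1, MX.mid 1))).1 0 := by
    have : actIso s m g = actIso s m h := hgh
    rw [this]
  rw [actIso_apply, actIso_apply, blk_self] at h1
  have h2 := congrArg Prod.fst h1
  have h3 : (MX.mid (g * 1) : MX G) = MX.mid (h * 1) := h2
  have h4 := MX.mid.inj h3
  simpa using h4

/-! Splitting of the block maps. -/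

section Rigid

variable [Nontrivial G] (s : ℕ → G) (m : ℕ) (α : Lat s m ≃o Lat s m)

/-- block automorphisms -/
noncomputable def bl (i : ℕ) (hi : i ≤ m) : (MX G × MX G) ≃o (MX G × MX G) :=
  blkIso (phi_inf s) m (phi_top s) (phi_bot s) prod_atoms_top α i hi

theorem bl_apply (i : ℕ) (hi : i ≤ m) (u : Lat s m) :
    (α u).1 i = bl s m α i hi (u.1 i) :=
  aut_apply (phi_top s) (phi_bot s) prod_atoms_top α i hi u

theorem bl_link (i : ℕ) (hi : i + 1 ≤ m) (p : MX G × MX G) :
    bl s m α (i + 1) hi (phi s i p) = phi s i (bl s m α i (by omega) p) :=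
  blkMap_link (phi_top s) (phi_bot s) prod_atoms_top α i hi p

theorem phi_eq_bot (i : ℕ) (p : MX G × MX G) : phi s i p = ⊥ ↔ p.2 = ⊥ := by
  constructor
  · intro h
    exact congrArg Prod.snd h
  · intro h
    apply Prod.ext
    · show p.1 ⊓ rho (s i) p.2 = ⊥
      rw [h, map_bot]; simp
    · exact h

theorem bl_fst (i : ℕ) (hi : i + 1 ≤ m) : bl s m α i (by omega) (⊤, ⊥) = (⊤, ⊥) := by
  have key : ∀ (f : (MX G × MX G) ≃o (MX G × MX G)),
      (∀ p, phi s i p = ⊥ → phi s i (f p) = ⊥) → f (⊤, ⊥) ≤ (⊤, ⊥) := by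
    intro f hf
    have := hf (⊤, ⊥) ((phi_eq_bot s i _).mpr rfl)
    rw [phi_eq_bot] at this
    exact ⟨le_top, this.le⟩
  apply le_antisymm
  · apply key
    intro p hp
    rw [← bl_link s m α i hi, hp, map_bot]
  · have := key (bl s m α i (by omega)).symm (by
      intro p hp
      have h1 := bl_link s m α i hi ((bl s m α i (by omega)).symm p)
      rw [OrderIso.apply_symm_apply, hp] at h1
      rwa [map_eq_bot_iff] at h1)
    rwa [OrderIso.symm_apply_le] at this

theorem snd_of_fst (f : (MX G × MX G) ≃o (MX G × MX G)) (h : f (⊤, ⊥) = (⊤, ⊥)) :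
    f (⊥, ⊤) = (⊥, ⊤) := by
  have h1 : f (⊥, ⊤) ⊓ (⊤, ⊥) = ⊥ := by
    rw [← h, ← map_inf]
    have : ((⊥, ⊤) : MX G × MX G) ⊓ (⊤, ⊥) = ⊥ := by
      apply Prod.ext <;> simp
    rw [this, map_bot]
  have h2 : f (⊥, ⊤) ⊔ (⊤, ⊥) = ⊤ := by
    rw [← h, ← map_sup]
    have : ((⊥, ⊤) : MX G × MX G) ⊔ (⊤, ⊥) = ⊤ := by
      apply Prod.ext <;> simp
    rw [this, map_top]
  apply Prod.ext
  · have := congrArg Prod.fst h1
    simpa using this
  · have := congrArg Prod.snd h2
    simpa using this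

theorem fst_of_snd (f : (MX G × MX G) ≃o (MX G × MX G)) (h : f (⊥, ⊤) = (⊥, ⊤)) :
    f (⊤, ⊥) = (⊤, ⊥) := by
  have h1 : f (⊤, ⊥) ⊓ (⊥, ⊤) = ⊥ := by
    rw [← h, ← map_inf]
    have : ((⊤, ⊥) : MX G × MX G) ⊓ (⊥, ⊤) = ⊥ := by
      apply Prod.ext <;> simp
    rw [this, map_bot]
  have h2 : f (⊤, ⊥) ⊔ (⊥, ⊤) = ⊤ := by
    rw [← h, ← map_sup]
    have : ((⊤, ⊥) : MX G × MX G) ⊔ (⊥, ⊤) = ⊤ := by
      apply Prod.ext <;> simp
    rw [this, map_top]
  apply Prod.ext
  · have := congrArg Prod.fst h2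
    simpa using this
  · have := congrArg Prod.snd h1
    simpa using this

theorem split_apply (f : (MX G × MX G) ≃o (MX G × MX G)) (h : f (⊤, ⊥) = (⊤, ⊥))
    (p : MX G × MX G) : f p = ((f (p.1, ⊥)).1, (f (⊥, p.2)).2) := by
  have h' := snd_of_fst f h
  have h1 : (f (p.1, ⊥)).2 = ⊥ := by
    have : f (p.1, ⊥) ≤ f (⊤, ⊥) := f.monotone ⟨le_top, le_rfl⟩
    rw [h] at this
    exact le_bot_iff.mp this.2
  have h2 : (f (⊥, p.2)).1 = ⊥ := by
    have : f (⊥, p.2) ≤ f (⊥, ⊤) := f.monotone ⟨le_rfl, le_top⟩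
    rw [h'] at this
    exact le_bot_iff.mp this.1
  have h3 : p = (p.1, ⊥) ⊔ (⊥, p.2) := by
    apply Prod.ext <;> simp
  conv_lhs => rw [h3, map_sup]
  apply Prod.ext
  · show (f (p.1, ⊥)).1 ⊔ (f (⊥, p.2)).1 = _
    rw [h2]; simp
  · show (f (p.1, ⊥)).2 ⊔ (f (⊥, p.2)).2 = _
    rw [h1]; simp

theorem bl_fst' (hm : 1 ≤ m) (i : ℕ) (hi : i ≤ m) : bl s m α i hi (⊤, ⊥) = (⊤, ⊥) := by
  rcases Nat.lt_or_ge i m with h | h
  · exact bl_fst s m α i h
  · obtain ⟨k, rfl⟩ : ∃ k, i = k + 1 := ⟨i - 1, by omega⟩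
    apply fst_of_snd
    have h1 := bl_link s m α k hi (⊥, ⊤)
    have h2 : phi s k (⊥, ⊤) = (⊥, ⊤) := by
      apply Prod.ext
      · show ⊥ ⊓ _ = ⊥
        simp
      · rfl
    rw [h2, snd_of_fst _ (bl_fst s m α k hi), h2] at h1
    exact h1

/-- first coordinate map -/
noncomputable def sg (i : ℕ) (hi : i ≤ m) (v : MX G) : MX G := (bl s m α i hi (v, ⊥)).1
/-- second coordinate map -/
noncomputable def ta (i : ℕ) (hi : i ≤ m) (w : MX G) : MX G := (bl s m α i hi (⊥, w)).2

theorem bl_split (hm : 1 ≤ m) (i : ℕ) (hi : i ≤ m) (p : MX G × MX G) :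
    bl s m α i hi p = (sg s m α i hi p.1, ta s m α i hi p.2) :=
  split_apply _ (bl_fst' s m α hm i hi) p

theorem sg_top (hm : 1 ≤ m) (i : ℕ) (hi : i ≤ m) : sg s m α i hi ⊤ = ⊤ := by
  unfold sg
  rw [bl_fst' s m α hm i hi]

theorem ta_top (hm : 1 ≤ m) (i : ℕ) (hi : i ≤ m) : ta s m α i hi ⊤ = ⊤ := by
  unfold ta
  rw [snd_of_fst _ (bl_fst' s m α hm i hi)]

theorem step (hm : 1 ≤ m) (i : ℕ) (hi : i + 1 ≤ m) (v w : MX G) :
    sg s m α (i + 1) hi (v ⊓ rho (s i) w) =
      sg s m α i (by omega) v ⊓ rho (s i) (ta s m α i (by omega) w) ∧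
    ta s m α (i + 1) hi w = ta s m α i (by omega) w := by
  have h := bl_link s m α i hi (v, w)
  rw [bl_split s m α hm, bl_split s m α hm i] at h
  have h1 := congrArg Prod.fst h
  have h2 := congrArg Prod.snd h
  exact ⟨h1, h2⟩

theorem sg_succ (hm : 1 ≤ m) (i : ℕ) (hi : i + 1 ≤ m) (v : MX G) :
    sg s m α (i + 1) hi v = sg s m α i (by omega) v := by
  have h := (step s m α hm i hi v ⊤).1
  rw [ta_top s m α hm, map_top] at h
  simpa using h

theorem ta_succ (hm : 1 ≤ m) (i : ℕ) (hi : i + 1 ≤ m) (w : MX G) :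
    ta s m α (i + 1) hi w = ta s m α i (by omega) w :=
  (step s m α hm i hi ⊤ w).2

theorem sg_rho (hm : 1 ≤ m) (i : ℕ) (hi : i + 1 ≤ m) (w : MX G) :
    sg s m α i (by omega) (rho (s i) w) = rho (s i) (ta s m α i (by omega) w) := by
  have h := (step s m α hm i hi ⊤ w).1
  rw [sg_top s m α hm, sg_succ s m α hm] at h
  simpa using h

theorem sg_zero (hm : 1 ≤ m) (i : ℕ) (hi : i ≤ m) (v : MX G) :
    sg s m α i hi v = sg s m α 0 (Nat.zero_le m) v := by
  induction i with
  | zero => rfl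
  | succ k ih => rw [sg_succ s m α hm, ih (by omega)]

theorem ta_zero (hm : 1 ≤ m) (i : ℕ) (hi : i ≤ m) (v : MX G) :
    ta s m α i hi v = ta s m α 0 (Nat.zero_le m) v := by
  induction i with
  | zero => rfl
  | succ k ih => rw [ta_succ s m α hm, ih (by omega)]

theorem rho_one (w : MX G) : rho (1 : G) w = w := by
  cases w with
  | bot => rfl
  | mid x =>
    show MX.mid (x * 1) = MX.mid x
    rw [mul_one]
  | top => rfl

theorem sg_comm (hm : 1 ≤ m) (hs : ∀ g : G, ∃ i, i < m ∧ s i = g) (t : G) (w : MX G) :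
    sg s m α 0 (Nat.zero_le m) (rho t w) = rho t (sg s m α 0 (Nat.zero_le m) w) := by
  have hst : ∀ (t : G) (w : MX G), sg s m α 0 (Nat.zero_le m) (rho t w) =
      rho t (ta s m α 0 (Nat.zero_le m) w) := by
    intro t w
    obtain ⟨i, hi, rfl⟩ := hs t
    have := sg_rho s m α hm i hi w
    rwa [sg_zero s m α hm, ta_zero s m α hm] at this
  have h1 : ∀ w, sg s m α 0 (Nat.zero_le m) w = ta s m α 0 (Nat.zero_le m) w := by
    intro w
    have := hst 1 w
    rwa [rho_one, rho_one] at this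
  rw [hst, h1]

theorem ta_eq_sg (hm : 1 ≤ m) (hs : ∀ g : G, ∃ i, i < m ∧ s i = g) (w : MX G) :
    ta s m α 0 (Nat.zero_le m) w = sg s m α 0 (Nat.zero_le m) w := by
  obtain ⟨i, hi, h1⟩ := hs 1
  have := sg_rho s m α hm i hi w
  rw [sg_zero s m α hm, ta_zero s m α hm, h1, rho_one, rho_one] at this
  exact this.symm

theorem sg_inj (hm : 1 ≤ m) (v w : MX G)
    (h : sg s m α 0 (Nat.zero_le m) v = sg s m α 0 (Nat.zero_le m) w) : v = w := by
  have h1 : bl s m α 0 (Nat.zero_le m) (v, ⊥) = bl s m α 0 (Nat.zero_le m) (w, ⊥) := by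
    rw [bl_split s m α hm, bl_split s m α hm]
    apply Prod.ext
    · exact h
    · rfl
  have h2 := (bl s m α 0 (Nat.zero_le m)).injective h1
  exact congrArg Prod.fst h2

theorem exists_g (hm : 1 ≤ m) (hs : ∀ g : G, ∃ i, i < m ∧ s i = g) :
    ∃ g : G, ∀ w, sg s m α 0 (Nat.zero_le m) w = lam g w := by
  have htop := sg_top s m α hm 0 (Nat.zero_le m)
  have hbot : sg s m α 0 (Nat.zero_le m) ⊥ = ⊥ := by
    unfold sg
    have : ((⊥, ⊥) : MX G × MX G) = ⊥ := rfl
    rw [this, map_bot]; rfl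
  have h1 : ∃ g : G, sg s m α 0 (Nat.zero_le m) (MX.mid 1) = MX.mid g := by
    cases h : sg s m α 0 (Nat.zero_le m) (MX.mid (1 : G)) with
    | bot =>
      have : sg s m α 0 (Nat.zero_le m) (MX.mid (1 : G)) = sg s m α 0 (Nat.zero_le m) ⊥ := by
        rw [h, hbot]; rfl
      have := sg_inj s m α hm _ _ this
      exact absurd this (by rw [MX.bot_eq]; simp)
    | mid g => exact ⟨g, rfl⟩
    | top =>
      have : sg s m α 0 (Nat.zero_le m) (MX.mid (1 : G)) = sg s m α 0 (Nat.zero_le m) ⊤ := by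
        rw [h, htop]; rfl
      have := sg_inj s m α hm _ _ this
      exact absurd this (by rw [MX.top_eq]; simp)
  obtain ⟨g, hg⟩ := h1
  refine ⟨g, fun w => ?_⟩
  cases w with
  | bot => exact hbot
  | mid x =>
    have h2 := sg_comm s m α hm hs x (MX.mid 1)
    rw [hg] at h2
    have h3 : rho x (MX.mid 1) = MX.mid x := by
      show MX.mid (1 * x) = MX.mid x
      rw [one_mul]
    rw [h3] at h2
    rw [h2]; rfl
  | top => exact htop

theorem actHom_surjective (hm : 1 ≤ m) (hs : ∀ g : G, ∃ i, i < m ∧ s i = g) :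
    Function.Surjective (actHom s m) := by
  intro α
  obtain ⟨g, hg⟩ := exists_g s m α hm hs
  refine ⟨g, ?_⟩
  apply OrderIso.ext; funext u
  apply Subtype.ext; funext i
  show lam2 g (u.1 i) = (α u).1 i
  rcases Nat.lt_or_ge m i with h | h
  · rw [u.2.2.2 i h, (α u).2.2.2 i h, map_bot]
  · rw [bl_apply s m α i h, bl_split s m α hm, sg_zero s m α hm, ta_zero s m α hm,
      ta_eq_sg s m α hm hs, hg, hg]
    exact lam2_apply g _

end Rigid

/-! Counting. -/

section Count

variable [Finite G] (s : ℕ → G) (m : ℕ)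

open Classical in
/-- code of an element of the stack -/
noncomputable def code (u : Lat s m) : Fin (m + 2) × ((MX G × MX G) × (MX G × MX G)) :=
  have h : ∃ i, u.1 i ≠ ⊤ := ⟨m + 1, by
    rw [u.2.2.2 (m + 1) (by omega)]; exact bot_ne_top⟩
  (⟨Nat.find h, Nat.lt_succ_of_le (Nat.find_min' h (by
    rw [u.2.2.2 (m + 1) (by omega)]; exact bot_ne_top))⟩, (u.1 (Nat.find h), u.1 (Nat.find h + 1)))

theorem code_injective : Function.Injective (code s m) := by
  classical
  intro u w huw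
  have hu : ∃ i, u.1 i ≠ ⊤ := ⟨m + 1, by
    rw [u.2.2.2 (m + 1) (by omega)]; exact bot_ne_top⟩
  have hw : ∃ i, w.1 i ≠ ⊤ := ⟨m + 1, by
    rw [w.2.2.2 (m + 1) (by omega)]; exact bot_ne_top⟩
  have h1 : Nat.find hu = Nat.find hw := by
    have := congrArg (fun z => (z.1 : ℕ)) huw
    exact this
  have h2 : u.1 (Nat.find hu) = w.1 (Nat.find hw) := congrArg (fun z => z.2.1) huw
  have h3 : u.1 (Nat.find hu + 1) = w.1 (Nat.find hw + 1) := congrArg (fun z => z.2.2) huw
  rw [← h1] at h2 h3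
  apply Subtype.ext; funext j
  rcases lt_trichotomy j (Nat.find hu) with h | h | h
  · have a1 := Nat.find_min hu h
    have a2 := Nat.find_min hw (h1 ▸ h)
    rw [not_not] at a1 a2
    rw [a1, a2]
  · rw [h]; exact h2
  · rcases Nat.lt_or_ge (Nat.find hu + 1) j with h' | h'
    · have b1 := u.2.2.1 _ (Nat.find_spec hu)
      have b2 := w.2.2.1 _ (Nat.find_spec hw)
      rw [← h1] at b2
      rw [zero_after (phi_bot s) u _ j (by omega) b1, zero_after (phi_bot s) w _ j (by omega) b2]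
    · have : j = Nat.find hu + 1 := by omega
      rw [this]; exact h3

instance : Finite (Lat s m) := Finite.of_injective _ (code_injective s m)

theorem lat_card : Nat.card (Lat s m) ≤ (m + 2) * (Nat.card G + 2) ^ 4 := by
  have h := Nat.card_le_card_of_injective _ (code_injective s m)
  rw [Nat.card_prod, Nat.card_prod, Nat.card_prod, Nat.card_eq_fintype_card (α := Fin (m + 2)),
    Fintype.card_fin] at h
  have h2 : Nat.card (MX G) ≤ Nat.card G + 2 := MX.card_le
  calc Nat.card (Lat s m) ≤ (m + 2) *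
        (Nat.card (MX G) * Nat.card (MX G) * (Nat.card (MX G) * Nat.card (MX G))) := h
    _ ≤ (m + 2) * (Nat.card G + 2) ^ 4 := by
      apply Nat.mul_le_mul_left
      calc Nat.card (MX G) * Nat.card (MX G) * (Nat.card (MX G) * Nat.card (MX G))
          = Nat.card (MX G) ^ 4 := by ring
        _ ≤ (Nat.card G + 2) ^ 4 := Nat.pow_le_pow_left h2 4

end Count

end Group

/-- Every finite group of order `n` is the automorphism group of a modular lattice with at most
`n ^ 10` elements. -/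
theorem exists_lattice (G : Type) [Group G] [Finite G] :
    ∃ (L : Type) (_ : Lattice L) (_ : IsModularLattice L) (_ : Finite L),
      Nat.card L ≤ Nat.card G ^ 10 ∧ Nonempty ((L ≃o L) ≃* G) := by
  rcases subsingleton_or_nontrivial G with hG | hG
  · refine ⟨PUnit, inferInstance, inferInstance, inferInstance, ?_, ?_⟩
    · have : Nat.card G = 1 := Nat.card_unique
      rw [this]
      simp
    · refine ⟨MulEquiv.mk ⟨fun _ => 1, fun _ => 1, ?_, ?_⟩ ?_⟩
      · intro a
        apply OrderIso.ext; funext x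
        rfl
      · intro g
        exact Subsingleton.elim _ _
      · intro a b
        simp
  · set n := Nat.card G with hn
    have hn2 : 2 ≤ n := Finite.one_lt_card
    let e : G ≃ Fin n := Finite.equivFin G
    let s : ℕ → G := fun i => if h : i < n then e.symm ⟨i, h⟩ else 1
    have hs : ∀ g : G, ∃ i, i < n ∧ s i = g := by
      intro g
      refine ⟨(e g).1, (e g).2, ?_⟩
      have : (e g).1 < n := (e g).2
      simp only [s, this, dif_pos]
      simp
    refine ⟨Lat s n, inferInstance, piModular _, inferInstance, ?_, ?_⟩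
    · refine (lat_card s n).trans ?_
      have h1 : n + 2 ≤ n ^ 2 := by nlinarith
      calc (n + 2) * (Nat.card G + 2) ^ 4 = (n + 2) ^ 5 := by rw [← hn]; ring
        _ ≤ (n ^ 2) ^ 5 := Nat.pow_le_pow_left h1 5
        _ = n ^ 10 := by ring
    · exact ⟨(MulEquiv.ofBijective (actHom s n)
        ⟨actHom_injective s n, actHom_surjective s n (by omega) hs⟩).symm⟩

end Pool.Agent.Work.MP_9ddcd7_co
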