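import Mathlib

set_option autoImplicit false

namespace Pool.Agent.Work.MP_9ddcd7_co

/-! A stack of copies of a bounded lattice `N`, consecutive copies linked by
meet-preserving maps. -/

section Stack

variable {N : Type} [Lattice N] [BoundedOrder N]

/-- The stack: sequences `u` in `N` with `u (i+1) ≤ φ i (u i)`, vanishing two steps after the
first entry different from `⊤`, and vanishing after index `m`. -/
def stack (φ : ℕ → N → N) (hinf : ∀ i a b, φ i (a ⊓ b) = φ i a ⊓ φ i b) (m : ℕ) :
    Sublattice (ℕ → N) where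
  carrier := {u | (∀ i, u (i + 1) ≤ φ i (u i)) ∧ (∀ i, u i ≠ ⊤ → u (i + 2) = ⊥) ∧
    (∀ i, m < i → u i = ⊥)}
  supClosed' := by
    rintro u ⟨hu1, hu2, hu3⟩ w ⟨hw1, hw2, hw3⟩
    have hmono : ∀ i a b, a ≤ b → φ i a ≤ φ i b := by
      intro i a b hab
      have h1 := hinf i a b
      rw [inf_eq_left.mpr hab] at h1
      rw [h1]; exact inf_le_right
    refine ⟨fun i => ?_, fun i hi => ?_, fun i hi => ?_⟩
    · exact sup_le ((hu1 i).trans (hmono i _ _ le_sup_left))
        ((hw1 i).trans (hmono i _ _ le_sup_right))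
    · have h1 : u i ≠ ⊤ := by
        intro h; apply hi; simp [h]
      have h2 : w i ≠ ⊤ := by
        intro h; apply hi; simp [h]
      simp [hu2 i h1, hw2 i h2]
    · simp [hu3 i hi, hw3 i hi]
  infClosed' := by
    rintro u ⟨hu1, hu2, hu3⟩ w ⟨hw1, hw2, hw3⟩
    refine ⟨fun i => ?_, fun i hi => ?_, fun i hi => ?_⟩
    · simp only [Pi.inf_apply, hinf]
      exact inf_le_inf (hu1 i) (hw1 i)
    · by_cases h1 : u i = ⊤
      · have h2 : w i ≠ ⊤ := by
          intro h; apply hi; simp [h, h1]
        simp [hw2 i h2]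
      · simp [hu2 i h1]
    · simp [hu3 i hi]

/-- Sequence with `⊤` before `i`, `v` at `i`, `w` at `i+1` and `⊥` afterwards. -/
noncomputable def seq3 (i : ℕ) (v w : N) : ℕ → N :=
  fun j => if j < i then ⊤ else if j = i then v else if j = i + 1 then w else ⊥

theorem seq3_lt {i j : ℕ} (v w : N) (h : j < i) : seq3 i v w j = ⊤ := by
  simp [seq3, h]

theorem seq3_self {i : ℕ} (v w : N) : seq3 i v w i = v := by
  simp [seq3]

theorem seq3_succ {i : ℕ} (v w : N) : seq3 i v w (i + 1) = w := by
  simp [seq3]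

theorem seq3_gt {i j : ℕ} (v w : N) (h : i + 1 < j) : seq3 i v w j = ⊥ := by
  have h1 : ¬ j < i := by omega
  have h2 : j ≠ i := by omega
  have h3 : j ≠ i + 1 := by omega
  simp [seq3, h1, h2, h3]

variable {φ : ℕ → N → N} {hinf : ∀ i a b, φ i (a ⊓ b) = φ i a ⊓ φ i b} {m : ℕ}

theorem seq3_mem (htop : ∀ i, φ i ⊤ = ⊤) {i : ℕ} {v w : N} (hw : w ≤ φ i v)
    (h1 : i ≤ m ∨ v = ⊥ ∧ i ≤ m + 1) (h2 : i + 1 ≤ m ∨ w = ⊥) :
    seq3 i v w ∈ stack φ hinf m := by
  refine ⟨fun j => ?_, fun j hj => ?_, fun j hj => ?_⟩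
  · rcases lt_trichotomy j i with h | h | h
    · rw [seq3_lt v w h, htop]; exact le_top
    · subst h; rw [seq3_succ, seq3_self]; exact hw
    · rw [seq3_gt v w (by omega)]; exact bot_le
  · have h : ¬ j < i := fun h => hj (seq3_lt v w h)
    exact seq3_gt v w (by omega)
  · rcases lt_trichotomy j i with h | h | h
    · omega
    · subst h; rw [seq3_self]
      rcases h1 with h1 | h1
      · omega
      · exact h1.1
    · rcases Nat.lt_or_ge (i + 1) j with h' | h'
      · exact seq3_gt v w h'
      · have : j = i + 1 := by omega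
        subst this
        rw [seq3_succ]
        rcases h2 with h2 | h2
        · omega
        · exact h2

/-- The element of the stack given by `seq3`. -/
noncomputable def el (hinf : ∀ i a b, φ i (a ⊓ b) = φ i a ⊓ φ i b) (m : ℕ)
    (htop : ∀ i, φ i ⊤ = ⊤) (i : ℕ) (v w : N) (hw : w ≤ φ i v)
    (h1 : i ≤ m ∨ v = ⊥ ∧ i ≤ m + 1) (h2 : i + 1 ≤ m ∨ w = ⊥) : stack φ hinf m :=
  ⟨seq3 i v w, seq3_mem htop hw h1 h2⟩

/-- cut elements -/
noncomputable def cut (hinf : ∀ i a b, φ i (a ⊓ b) = φ i a ⊓ φ i b) (m : ℕ)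
    (htop : ∀ i, φ i ⊤ = ⊤) (i : ℕ) (hi : i ≤ m + 1) : stack φ hinf m :=
  el hinf m htop i ⊥ ⊥ bot_le (Or.inr ⟨rfl, hi⟩) (Or.inr rfl)

/-- elements of the `i`-th block -/
noncomputable def blk (hinf : ∀ i a b, φ i (a ⊓ b) = φ i a ⊓ φ i b) (m : ℕ)
    (htop : ∀ i, φ i ⊤ = ⊤) (i : ℕ) (hi : i ≤ m) (v : N) : stack φ hinf m :=
  el hinf m htop i v ⊥ bot_le (Or.inl hi) (Or.inr rfl)

/-- linking elements -/
noncomputable def lnk (hinf : ∀ i a b, φ i (a ⊓ b) = φ i a ⊓ φ i b) (m : ℕ)
    (htop : ∀ i, φ i ⊤ = ⊤) (i : ℕ) (hi : i + 1 ≤ m) (v : N) : stack φ hinf m :=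
  el hinf m htop i v (φ i v) le_rfl (Or.inl (by omega)) (Or.inl hi)

variable (htop : ∀ i, φ i ⊤ = ⊤) (hbot : ∀ i, φ i ⊥ = ⊥)

theorem cut_lt {i j : ℕ} (hi : i ≤ m + 1) (h : j < i) : (cut hinf m htop i hi).1 j = ⊤ :=
  seq3_lt _ _ h

theorem cut_ge {i j : ℕ} (hi : i ≤ m + 1) (h : i ≤ j) : (cut hinf m htop i hi).1 j = ⊥ := by
  show seq3 i ⊥ ⊥ j = ⊥
  rcases Nat.lt_or_ge (i + 1) j with h' | h'
  · exact seq3_gt _ _ h'
  · rcases Nat.eq_or_lt_of_le h with h'' | h''
    · subst h''; exact seq3_self _ _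
    · have : j = i + 1 := by omega
      subst this; exact seq3_succ _ _

theorem blk_lt {i j : ℕ} (hi : i ≤ m) (v : N) (h : j < i) :
    (blk hinf m htop i hi v).1 j = ⊤ := seq3_lt _ _ h

theorem blk_self {i : ℕ} (hi : i ≤ m) (v : N) :
    (blk hinf m htop i hi v).1 i = v := seq3_self _ _

theorem blk_gt {i j : ℕ} (hi : i ≤ m) (v : N) (h : i < j) :
    (blk hinf m htop i hi v).1 j = ⊥ := by
  show seq3 i v ⊥ j = ⊥
  rcases Nat.lt_or_ge (i + 1) j with h' | h'
  · exact seq3_gt _ _ h'
  · have : j = i + 1 := by omega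
    subst this; exact seq3_succ _ _

/-- an element between two consecutive cuts lies in the block -/
theorem eq_blk {i : ℕ} (hi : i ≤ m) (u : stack φ hinf m)
    (h1 : cut hinf m htop i (by omega) ≤ u) (h2 : u ≤ cut hinf m htop (i + 1) (by omega)) :
    u = blk hinf m htop i hi (u.1 i) := by
  apply Subtype.ext
  funext j
  rcases lt_trichotomy j i with h | h | h
  · rw [blk_lt htop hi _ h]
    have := h1 j
    rw [cut_lt htop _ h] at this
    exact top_le_iff.mp this
  · subst h; rw [blk_self]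
  · rw [blk_gt htop hi _ h]
    have := h2 j
    rw [cut_ge htop _ (by omega)] at this
    exact le_bot_iff.mp this

include hbot in
theorem zero_after (u : stack φ hinf m) (i j : ℕ) (h : i ≤ j) (hu : u.1 i = ⊥) : u.1 j = ⊥ := by
  induction j, h using Nat.le_induction with
  | base => exact hu
  | succ k hk ih =>
    have := u.2.1 k
    rw [ih, hbot] at this
    exact le_bot_iff.mp this

theorem cut_le_blk {i : ℕ} (hi : i ≤ m) (v : N) :
    cut hinf m htop i (by omega) ≤ blk hinf m htop i hi v := by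
  intro j
  rcases lt_trichotomy j i with h | h | h
  · rw [blk_lt htop hi _ h]; exact le_top
  · subst h; rw [cut_ge htop _ le_rfl]; exact bot_le
  · rw [cut_ge htop _ (by omega)]; exact bot_le

theorem blk_le_cut {i : ℕ} (hi : i ≤ m) (v : N) :
    blk hinf m htop i hi v ≤ cut hinf m htop (i + 1) (by omega) := by
  intro j
  rcases lt_trichotomy j i with h | h | h
  · rw [cut_lt htop _ (by omega)]; exact le_top
  · subst h; rw [cut_lt htop _ (by omega)]; exact le_top
  · rw [blk_gt htop hi _ h]; exact bot_le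

theorem blk_mono {i : ℕ} (hi : i ≤ m) {v w : N} (h : v ≤ w) :
    blk hinf m htop i hi v ≤ blk hinf m htop i hi w := by
  intro j
  rcases lt_trichotomy j i with h' | h' | h'
  · rw [blk_lt htop hi _ h', blk_lt htop hi _ h']
  · subst h'; rw [blk_self, blk_self]; exact h
  · rw [blk_gt htop hi _ h', blk_gt htop hi _ h']

theorem blk_atom {i : ℕ} (hi : i ≤ m) {a : N} (ha : IsAtom a) :
    cut hinf m htop i (by omega) ⋖ blk hinf m htop i hi a := by
  refine ⟨lt_of_le_of_ne (cut_le_blk htop hi a) ?_, ?_⟩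
  · intro h
    have := congrArg (fun z : stack φ hinf m => z.1 i) h
    simp only [cut_ge htop _ (le_refl i), blk_self] at this
    exact ha.1 this.symm
  · intro z hz1 hz2
    have hz3 : z = blk hinf m htop i hi (z.1 i) :=
      eq_blk htop hi z hz1.le (hz2.le.trans (blk_le_cut htop hi a))
    have hz4 : z.1 i ≤ a := by
      have := hz2.le i
      rwa [blk_self] at this
    rcases ha.le_iff.mp hz4 with h | h
    · apply hz1.ne
      rw [hz3, h]
      apply Subtype.ext; funext j
      rcases lt_trichotomy j i with h' | h' | h'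
      · rw [blk_lt htop hi _ h', cut_lt htop _ h']
      · subst h'; rw [blk_self, cut_ge htop _ le_rfl]
      · rw [blk_gt htop hi _ h', cut_ge htop _ (by omega)]
    · apply hz2.ne
      rw [hz3, h]

include hbot in
/-- the covers of a cut lie in the next block -/
theorem covers_le {i : ℕ} (hi : i ≤ m) (u : stack φ hinf m)
    (hu : cut hinf m htop i (by omega) ⋖ u) : u ≤ cut hinf m htop (i + 1) (by omega) := by
  have hui : u.1 i ≠ ⊥ := by
    intro h
    apply hu.1.ne
    apply Subtype.ext; funext j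
    rcases Nat.lt_or_ge j i with h' | h'
    · have := hu.1.le j
      rw [cut_lt htop _ h'] at this
      rw [cut_lt htop _ h']
      exact (top_le_iff.mp this).symm
    · rw [cut_ge htop _ h', zero_after hbot u i j h' h]
  have h1 : blk hinf m htop i hi (u.1 i) ≤ u := by
    intro j
    rcases lt_trichotomy j i with h' | h' | h'
    · have := hu.1.le j
      rw [cut_lt htop _ h'] at this
      rw [blk_lt htop hi _ h']; exact this
    · subst h'; rw [blk_self]
    · rw [blk_gt htop hi _ h']; exact bot_le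
  have h2 : cut hinf m htop i (by omega) < blk hinf m htop i hi (u.1 i) := by
    refine lt_of_le_of_ne (cut_le_blk htop hi _) ?_
    intro h
    have := congrArg (fun z : stack φ hinf m => z.1 i) h
    simp only [cut_ge htop _ (le_refl i), blk_self] at this
    exact hui this.symm
  have h3 : blk hinf m htop i hi (u.1 i) = u := by
    by_contra h
    exact hu.2 h2 (lt_of_le_of_ne h1 h)
  rw [← h3]
  exact blk_le_cut htop hi _

theorem isLUB_cut (hat : ∀ w : N, (∀ a, IsAtom a → a ≤ w) → w = ⊤) [Nontrivial N] {i : ℕ}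
    (hi : i ≤ m) (hbot : ∀ i, φ i ⊥ = ⊥) :
    IsLUB {u : stack φ hinf m | cut hinf m htop i (by omega) ⋖ u}
      (cut hinf m htop (i + 1) (by omega)) := by
  refine ⟨fun u hu => covers_le htop hbot hi u hu, fun w hw => ?_⟩
  have hex : ∃ a : N, IsAtom a := by
    by_contra h
    push Not at h
    have := hat ⊥ (fun a ha => (h a ha).elim)
    exact bot_ne_top this
  obtain ⟨a0, ha0⟩ := hex
  have hw0 : cut hinf m htop i (by omega) ≤ w :=
    (blk_atom htop hi ha0).1.le.trans (hw (blk_atom htop hi ha0))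
  have hwi : w.1 i = ⊤ := by
    apply hat
    intro a ha
    have := hw (blk_atom htop hi ha) i
    rwa [blk_self] at this
  intro j
  rcases lt_trichotomy j i with h' | h' | h'
  · have := hw0 j
    rw [cut_lt htop _ h'] at this
    rw [cut_lt htop _ (by omega)]; exact this
  · subst h'; rw [hwi]; exact le_top
  · rw [cut_ge htop _ (by omega)]; exact bot_le

section Aut

variable (hat : ∀ w : N, (∀ a, IsAtom a → a ≤ w) → w = ⊤)

include hbot hat in
theorem aut_cut [Nontrivial N] (α : stack φ hinf m ≃o stack φ hinf m) (i : ℕ) (hi : i ≤ m + 1) :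
    α (cut hinf m htop i hi) = cut hinf m htop i hi := by
  induction i with
  | zero =>
    have hb : ∀ u : stack φ hinf m, cut hinf m htop 0 hi ≤ u := by
      intro u j
      rw [cut_ge htop _ (Nat.zero_le j)]; exact bot_le
    apply le_antisymm
    · have := hb (α.symm (cut hinf m htop 0 hi))
      rwa [OrderIso.le_symm_apply] at this
    · exact hb _
  | succ i ih =>
    have h1 := isLUB_cut (hinf := hinf) htop hat (i := i) (m := m) (by omega) hbot
    have h2 : IsLUB (α '' {u : stack φ hinf m | cut hinf m htop i (by omega) ⋖ u})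
        (α (cut hinf m htop (i + 1) (by omega))) := by
      rw [OrderIso.isLUB_image']
      exact h1
    have h3 : α '' {u : stack φ hinf m | cut hinf m htop i (by omega) ⋖ u} =
        {u : stack φ hinf m | cut hinf m htop i (by omega) ⋖ u} := by
      ext u
      constructor
      · rintro ⟨z, hz, rfl⟩
        have := (apply_covBy_apply_iff α).mpr hz
        rwa [ih (by omega)] at this
      · intro hu
        refine ⟨α.symm u, ?_, by simp⟩
        show cut hinf m htop i (by omega) ⋖ α.symm u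
        rw [← apply_covBy_apply_iff α, ih (by omega)]
        simpa using hu
    rw [h3] at h2
    exact h2.unique h1

/-- action of an automorphism on the `i`-th block -/
noncomputable def blkMap (hinf : ∀ i a b, φ i (a ⊓ b) = φ i a ⊓ φ i b) (m : ℕ)
    (htop : ∀ i, φ i ⊤ = ⊤) (α : stack φ hinf m ≃o stack φ hinf m) (i : ℕ) (hi : i ≤ m)
    (v : N) : N := (α (blk hinf m htop i hi v)).1 i

include hbot hat in
theorem aut_apply [Nontrivial N] (α : stack φ hinf m ≃o stack φ hinf m) (i : ℕ) (hi : i ≤ m)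
    (u : stack φ hinf m) : (α u).1 i = blkMap hinf m htop α i hi (u.1 i) := by
  have h1 : blk hinf m htop i hi (u.1 i) =
      (u ⊔ cut hinf m htop i (by omega)) ⊓ cut hinf m htop (i + 1) (by omega) := by
    apply Subtype.ext; funext j
    show _ = (u.1 j ⊔ (cut hinf m htop i (by omega)).1 j) ⊓
      (cut hinf m htop (i + 1) (by omega)).1 j
    rcases lt_trichotomy j i with h' | h' | h'
    · rw [blk_lt htop hi _ h', cut_lt htop _ h', cut_lt htop _ (by omega)]; simp
    · subst h'
      rw [blk_self, cut_ge htop _ le_rfl, cut_lt htop _ (by omega)]; simp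
    · rw [blk_gt htop hi _ h', cut_ge htop _ (by omega : i + 1 ≤ j)]; simp
  unfold blkMap
  rw [h1, map_inf, map_sup, aut_cut htop hbot hat, aut_cut htop hbot hat]
  show (α u).1 i = ((α u).1 i ⊔ (cut hinf m htop i (by omega)).1 i) ⊓
      (cut hinf m htop (i + 1) (by omega)).1 i
  rw [cut_ge htop _ le_rfl, cut_lt htop _ (by omega)]; simp

include hbot hat in
theorem blkMap_symm [Nontrivial N] (α : stack φ hinf m ≃o stack φ hinf m) (i : ℕ) (hi : i ≤ m)
    (v : N) : blkMap hinf m htop α.symm i hi (blkMap hinf m htop α i hi v) = v := by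
  have h := aut_apply htop hbot hat α.symm i hi (α (blk hinf m htop i hi v))
  rw [OrderIso.symm_apply_apply, blk_self] at h
  exact h.symm

include hbot hat in
theorem blkMap_symm' [Nontrivial N] (α : stack φ hinf m ≃o stack φ hinf m) (i : ℕ) (hi : i ≤ m)
    (v : N) : blkMap hinf m htop α i hi (blkMap hinf m htop α.symm i hi v) = v := by
  have h := aut_apply htop hbot hat α i hi (α.symm (blk hinf m htop i hi v))
  rw [OrderIso.apply_symm_apply, blk_self] at h
  exact h.symm

theorem blkMap_mono (α : stack φ hinf m ≃o stack φ hinf m) (i : ℕ) (hi : i ≤ m)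
    {v w : N} (h : v ≤ w) : blkMap hinf m htop α i hi v ≤ blkMap hinf m htop α i hi w :=
  α.monotone (blk_mono htop hi h) i

/-- the block map as an order isomorphism -/
noncomputable def blkIso [Nontrivial N] (hinf : ∀ i a b, φ i (a ⊓ b) = φ i a ⊓ φ i b) (m : ℕ)
    (htop : ∀ i, φ i ⊤ = ⊤) (hbot : ∀ i, φ i ⊥ = ⊥)
    (hat : ∀ w : N, (∀ a, IsAtom a → a ≤ w) → w = ⊤)
    (α : stack φ hinf m ≃o stack φ hinf m) (i : ℕ) (hi : i ≤ m) : N ≃o N where
  toFun := blkMap hinf m htop α i hi
  invFun := blkMap hinf m htop α.symm i hi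
  left_inv := blkMap_symm htop hbot hat α i hi
  right_inv := blkMap_symm' htop hbot hat α i hi
  map_rel_iff' := by
    intro a b
    constructor
    · intro h
      have := blkMap_mono htop α.symm i hi h
      simp only [Equiv.coe_fn_mk] at this
      rwa [blkMap_symm htop hbot hat, blkMap_symm htop hbot hat] at this
    · intro h
      exact blkMap_mono htop α i hi h

theorem blkMap_link_le [Nontrivial N] (hbot : ∀ i, φ i ⊥ = ⊥)
    (hat : ∀ w : N, (∀ a, IsAtom a → a ≤ w) → w = ⊤)
    (α : stack φ hinf m ≃o stack φ hinf m) (i : ℕ) (hi : i + 1 ≤ m)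
    (v : N) : blkMap hinf m htop α (i + 1) hi (φ i v) ≤
      φ i (blkMap hinf m htop α i (by omega) v) := by
  have h := (α (lnk hinf m htop i hi v)).2.1 i
  rw [aut_apply htop hbot hat α (i + 1) hi, aut_apply htop hbot hat α i (by omega)] at h
  have h1 : (lnk hinf m htop i hi v).1 (i + 1) = φ i v := seq3_succ _ _
  have h2 : (lnk hinf m htop i hi v).1 i = v := seq3_self _ _
  rw [h1, h2] at h
  exact h

theorem blkMap_link [Nontrivial N] (hbot : ∀ i, φ i ⊥ = ⊥)
    (hat : ∀ w : N, (∀ a, IsAtom a → a ≤ w) → w = ⊤)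
    (α : stack φ hinf m ≃o stack φ hinf m) (i : ℕ) (hi : i + 1 ≤ m)
    (v : N) : blkMap hinf m htop α (i + 1) hi (φ i v) =
      φ i (blkMap hinf m htop α i (by omega) v) := by
  apply le_antisymm (blkMap_link_le htop hbot hat α i hi v)
  have h := blkMap_link_le htop hbot hat α.symm i hi (blkMap hinf m htop α i (by omega) v)
  rw [blkMap_symm htop hbot hat] at h
  have h2 := blkMap_mono htop α (i + 1) hi h
  rwa [blkMap_symm' htop hbot hat] at h2

end Aut

end Stack

end Pool.Agent.Work.MP_9ddcd7_co
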